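import Mathlib

/-!
# The completely additive function of the iterated totient
-/

namespace Pool.Agent.Helper42.Tot

/-- The completely additive function with `f 2 = 1` and `f p = f (p - 1)` for odd primes `p`. -/
def f (n : ℕ) : ℕ :=
  (n.primeFactorsList.attach.map (fun q => if q.1 = 2 then 1 else
    if q.1 - 1 < n then f (q.1 - 1) else 0)).sum
termination_by n

/-- The value at primes. -/
def g (q : ℕ) : ℕ := if q = 2 then 1 else f (q - 1)

theorem f_eq (n : ℕ) : f n = (n.primeFactorsList.map g).sum := by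
  rw [f]
  have h : ∀ q : {x // x ∈ n.primeFactorsList}, (if q.1 = 2 then 1 else
      if q.1 - 1 < n then f (q.1 - 1) else 0) = g q.1 := by
    intro q
    unfold g
    have hp := Nat.prime_of_mem_primeFactorsList q.2
    have hle := Nat.le_of_mem_primeFactorsList q.2
    have h2 := hp.two_le
    rw [if_pos (show q.1 - 1 < n by omega)]
  rw [List.map_congr_left (fun q _ => h q)]
  congr 1
  exact List.attach_map_val

theorem f_one : f 1 = 0 := by rw [f_eq]; simp

theorem f_zero : f 0 = 0 := by rw [f_eq]; simp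

theorem f_prime {p : ℕ} (hp : p.Prime) : f p = g p := by
  rw [f_eq, Nat.primeFactorsList_prime hp]; simp

theorem f_two : f 2 = 1 := by rw [f_prime Nat.prime_two]; simp [g]

theorem f_odd_prime {p : ℕ} (hp : p.Prime) (h2 : p ≠ 2) : f p = f (p - 1) := by
  rw [f_prime hp]; simp [g, h2]

theorem f_mul {a b : ℕ} (ha : a ≠ 0) (hb : b ≠ 0) : f (a * b) = f a + f b := by
  rw [f_eq, f_eq a, f_eq b]
  rw [((Nat.perm_primeFactorsList_mul ha hb).map g).sum_eq]
  rw [List.map_append, List.sum_append]

theorem f_pow {a : ℕ} (ha : a ≠ 0) (k : ℕ) : f (a ^ k) = k * f a := by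
  induction k with
  | zero => simp [f_one]
  | succ k ih => rw [pow_succ, f_mul (pow_ne_zero _ ha) ha, ih]; ring

theorem f_pos {n : ℕ} (h : 2 ≤ n) : 1 ≤ f n := by
  induction n using Nat.strong_induction_on with
  | _ n ih =>
    obtain ⟨p, hp, hpn⟩ := Nat.exists_prime_and_dvd (show n ≠ 1 by omega)
    obtain ⟨m, rfl⟩ := hpn
    have hm : m ≠ 0 := by rintro rfl; omega
    rw [f_mul hp.ne_zero hm]
    by_cases h2 : p = 2
    · subst h2; rw [f_two]; omega
    · have h3 : f p = f (p - 1) := f_odd_prime hp h2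
      have hp2 := hp.two_le
      have h4 : 1 ≤ f (p - 1) := by
        refine ih (p - 1) ?_ (by omega)
        have : p ≤ p * m := Nat.le_mul_of_pos_right _ (Nat.pos_of_ne_zero hm)
        omega
      omega

/-- The value at the totient. -/
theorem f_totient {n : ℕ} (h : n ≠ 0) : f n.totient + (if Even n then 1 else 0) = f n := by
  induction n using Nat.recOnPosPrimePosCoprime with
  | zero => exact absurd rfl h
  | one => simp [f_one]
  | prime_pow p k hp hk =>
    rw [Nat.totient_prime_pow hp hk, f_mul (pow_ne_zero _ hp.ne_zero)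
      (by have := hp.two_le; omega), f_pow hp.ne_zero, f_pow hp.ne_zero]
    obtain ⟨j, rfl⟩ : ∃ j, k = j + 1 := ⟨k - 1, by omega⟩
    by_cases h2 : p = 2
    · subst h2
      have : Even (2 ^ (j + 1)) := by
        rw [pow_succ]; exact even_two.mul_left _
      rw [if_pos this]
      simp [f_one, f_two]
    · have hodd : ¬ Even (p ^ (j + 1)) := by
        rw [Nat.not_even_iff_odd]
        exact (hp.odd_of_ne_two h2).pow
      rw [if_neg hodd, ← f_odd_prime hp h2]
      simp only [Nat.add_sub_cancel]
      ring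
  | coprime a b ha hb hab iha ihb =>
    have ha0 : a ≠ 0 := by omega
    have hb0 : b ≠ 0 := by omega
    rw [Nat.totient_mul hab, f_mul (Nat.totient_pos.2 (by omega)).ne'
      (Nat.totient_pos.2 (by omega)).ne', f_mul ha0 hb0, ← iha ha0, ← ihb hb0]
    have h3 : ¬ (Even a ∧ Even b) := by
      rintro ⟨h1, h2⟩
      have := Nat.dvd_gcd h1.two_dvd h2.two_dvd
      rw [hab] at this
      omega
    by_cases hea : Even a
    · by_cases heb : Even b
      · exact absurd ⟨hea, heb⟩ h3
      · simp only [Nat.even_mul, hea, heb, or_false, if_true, if_false]; ring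
    · by_cases heb : Even b
      · simp only [Nat.even_mul, hea, heb, or_true, if_true, if_false]; ring
      · simp only [Nat.even_mul, hea, heb, or_false, if_false]; ring

theorem f_totient_even {n : ℕ} (h : n ≠ 0) (he : Even n) : f n.totient + 1 = f n := by
  have := f_totient h
  rwa [if_pos he] at this

theorem f_totient_odd {n : ℕ} (h : n ≠ 0) (he : ¬ Even n) : f n.totient = f n := by
  have := f_totient h
  rwa [if_neg he, add_zero] at this

/-- The iterates of an even number. -/
theorem iterate_even {n : ℕ} (h0 : n ≠ 0) (he : Even n) : ∀ j, j < f n →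
    Even (Nat.totient^[j] n) ∧ Nat.totient^[j] n ≠ 0 ∧ f (Nat.totient^[j] n) + j = f n := by
  intro j
  induction j with
  | zero => intro _; exact ⟨he, h0, rfl⟩
  | succ j ih =>
    intro hj
    obtain ⟨h1, h2, h3⟩ := ih (by omega)
    rw [Function.iterate_succ_apply']
    set m := Nat.totient^[j] n with hm
    have h4 := f_totient_even h2 h1
    have h5 : 2 < m := by
      by_contra hcon
      have : m = 2 := by
        rcases h1 with ⟨r, hr⟩
        omega
      rw [this, f_two] at h3
      omega
    refine ⟨Nat.totient_even h5, (Nat.totient_pos.2 (by omega)).ne', ?_⟩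
    omega

theorem iterate_ne_one {n : ℕ} (h0 : n ≠ 0) (he : Even n) {j : ℕ} (hj : j < f n) :
    Nat.totient^[j] n ≠ 1 := by
  intro h
  have := (iterate_even h0 he j hj).1
  rw [h] at this
  exact absurd this (by decide)

theorem iterate_eq_one {n : ℕ} (h0 : n ≠ 0) (he : Even n) : Nat.totient^[f n] n = 1 := by
  have h2 : 2 ≤ n := by
    rcases he with ⟨r, hr⟩; omega
  have hf := f_pos h2
  obtain ⟨j, hj⟩ : ∃ j, f n = j + 1 := ⟨f n - 1, by omega⟩
  obtain ⟨h1, h3, h4⟩ := iterate_even h0 he j (by omega)
  rw [hj, Function.iterate_succ_apply']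
  set m := Nat.totient^[j] n with hm
  have h5 := f_totient_even h3 h1
  have h6 : f m.totient = 0 := by omega
  have h7 : m.totient ≠ 0 := (Nat.totient_pos.2 (by omega)).ne'
  by_contra hcon
  have := f_pos (show 2 ≤ m.totient by omega)
  omega

/-- The class of `n`. -/
noncomputable def cls (n : ℕ) : ℕ := sInf {k : ℕ | 1 ≤ k ∧ Nat.totient^[k] n = 1}

theorem cls_even {n : ℕ} (h0 : n ≠ 0) (he : Even n) : cls n = f n := by
  have h2 : 2 ≤ n := by
    rcases he with ⟨r, hr⟩; omega
  unfold cls
  apply le_antisymm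
  · exact Nat.sInf_le ⟨f_pos h2, iterate_eq_one h0 he⟩
  · have hne : {k : ℕ | 1 ≤ k ∧ Nat.totient^[k] n = 1}.Nonempty :=
      ⟨f n, f_pos h2, iterate_eq_one h0 he⟩
    have h3 := Nat.sInf_mem hne
    by_contra hcon
    push Not at hcon
    exact iterate_ne_one h0 he hcon h3.2

theorem cls_odd {n : ℕ} (h3 : 3 ≤ n) (he : ¬ Even n) : cls n = f n + 1 := by
  have h0 : n ≠ 0 := by omega
  have hte : Even n.totient := Nat.totient_even h3
  have ht0 : n.totient ≠ 0 := (Nat.totient_pos.2 (by omega)).ne'
  have hft := f_totient_odd h0 he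
  have hmem : (f n + 1) ∈ {k : ℕ | 1 ≤ k ∧ Nat.totient^[k] n = 1} := by
    refine ⟨by omega, ?_⟩
    rw [Function.iterate_succ_apply, ← hft]
    exact iterate_eq_one ht0 hte
  unfold cls
  apply le_antisymm
  · exact Nat.sInf_le hmem
  · have h4 := Nat.sInf_mem ⟨_, hmem⟩
    by_contra hcon
    push Not at hcon
    set k := sInf {k : ℕ | 1 ≤ k ∧ Nat.totient^[k] n = 1} with hk
    obtain ⟨h5, h6⟩ := h4
    obtain ⟨j, hj⟩ : ∃ j, k = j + 1 := ⟨k - 1, by omega⟩
    rw [hj, Function.iterate_succ_apply] at h6
    exact iterate_ne_one ht0 hte (by omega) h6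

/-- The class differs from `f` by at most one. -/
theorem cls_bounds {n : ℕ} (h : 2 ≤ n) : f n ≤ cls n ∧ cls n ≤ f n + 1 := by
  by_cases he : Even n
  · rw [cls_even (by omega) he]; omega
  · have : 3 ≤ n := by
      rcases Nat.lt_or_ge n 3 with h3 | h3
      · have : n = 2 := by omega
        subst this; exact absurd even_two he
      · exact h3
    rw [cls_odd this he]; omega

end Pool.Agent.Helper42.Tot
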