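import Pool.Agent.Helper42.Tot.F

/-!
# Sums of completely multiplicative functions over smooth numbers
-/

namespace Pool.Agent.Helper42.Tot

open Finset

/-- Finite sums over smooth numbers are bounded by the sum of the series. -/
theorem sum_le_of_hasSum {N : ℕ} {h : ℕ → ℝ} (h0 : ∀ n, 0 ≤ h n) {a : ℝ}
    (hs : HasSum (fun m : N.smoothNumbers => h m) a) (T : Finset ℕ)
    (hT : ∀ m ∈ T, m ∈ N.smoothNumbers) : ∑ m ∈ T, h m ≤ a := by
  classical
  let s : Finset N.smoothNumbers := T.attach.map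
    ⟨fun m => ⟨m.1, hT m.1 m.2⟩, fun a b hab => by
      have := congrArg Subtype.val hab
      exact Subtype.ext this⟩
  have h1 : ∑ m ∈ s, h m = ∑ m ∈ T, h m := by
    rw [Finset.sum_map]
    exact Finset.sum_attach T h
  rw [← h1]
  exact sum_le_hasSum s (fun i _ => h0 i) hs

theorem hasSum_smooth (w : ℕ →* ℝ) (h1 : ∀ p : ℕ, p.Prime → |w p| < 1) (N : ℕ) :
    HasSum (fun m : N.smoothNumbers => w m) (∏ p ∈ N.primesBelow, (1 - w p)⁻¹) :=
  (EulerProduct.summable_and_hasSum_smoothNumbers_prod_primesBelow_geometric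
    (f := w) (fun {p} hp => by rw [Real.norm_eq_abs]; exact h1 p hp) N).2

/-- The principal character modulo `3`. -/
def chi0 : ℕ →* ℝ where
  toFun n := if n % 3 = 0 then 0 else 1
  map_one' := by norm_num
  map_mul' a b := by
    have h : (a * b) % 3 = ((a % 3) * (b % 3)) % 3 := Nat.mul_mod a b 3
    have ha : a % 3 = 0 ∨ a % 3 = 1 ∨ a % 3 = 2 := by omega
    have hb : b % 3 = 0 ∨ b % 3 = 1 ∨ b % 3 = 2 := by omega
    rw [h]
    rcases ha with ha | ha | ha <;> rcases hb with hb | hb | hb <;> rw [ha, hb] <;> norm_num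

/-- The nontrivial character modulo `3`. -/
def chi1 : ℕ →* ℝ where
  toFun n := if n % 3 = 0 then 0 else if n % 3 = 1 then 1 else -1
  map_one' := by norm_num
  map_mul' a b := by
    have h : (a * b) % 3 = ((a % 3) * (b % 3)) % 3 := Nat.mul_mod a b 3
    have ha : a % 3 = 0 ∨ a % 3 = 1 ∨ a % 3 = 2 := by omega
    have hb : b % 3 = 0 ∨ b % 3 = 1 ∨ b % 3 = 2 := by omega
    rw [h]
    rcases ha with ha | ha | ha <;> rcases hb with hb | hb | hb <;> rw [ha, hb] <;> norm_num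

theorem chi0_apply (n : ℕ) : chi0 n = if n % 3 = 0 then 0 else 1 := rfl

theorem chi1_apply (n : ℕ) : chi1 n = if n % 3 = 0 then 0 else if n % 3 = 1 then 1 else -1 := rfl

/-- Sums over smooth numbers in the class of `2` modulo `3`. -/
theorem sum_two_le (w : ℕ →* ℝ) (h0 : ∀ n, 0 ≤ w n) (h1 : ∀ p : ℕ, p.Prime → w p < 1) (N : ℕ)
    (T : Finset ℕ) (hT : ∀ m ∈ T, m ∈ N.smoothNumbers ∧ m % 3 = 2) :
    ∑ m ∈ T, w m ≤ (∏ p ∈ N.primesBelow, (1 - w p * chi0 p)⁻¹ -
      ∏ p ∈ N.primesBelow, (1 - w p * chi1 p)⁻¹) / 2 := by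
  have ha : ∀ p : ℕ, p.Prime → |w p * chi0 p| < 1 := by
    intro p hp
    rw [chi0_apply]
    split_ifs
    · simp
    · rw [mul_one, abs_of_nonneg (h0 p)]; exact h1 p hp
  have hb : ∀ p : ℕ, p.Prime → |w p * chi1 p| < 1 := by
    intro p hp
    rw [chi1_apply]
    split_ifs
    · simp
    · rw [mul_one, abs_of_nonneg (h0 p)]; exact h1 p hp
    · rw [mul_neg_one, abs_neg, abs_of_nonneg (h0 p)]; exact h1 p hp
  have hsa := hasSum_smooth (w * chi0) (by simpa using ha) N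
  have hsb := hasSum_smooth (w * chi1) (by simpa using hb) N
  have hs := (hsa.sub hsb).div_const 2
  simp only [MonoidHom.mul_apply] at hs
  have h2 : ∀ m ∈ T, w m = (w m * chi0 m - w m * chi1 m) / 2 := by
    intro m hm
    have := (hT m hm).2
    rw [chi0_apply, chi1_apply, this]
    norm_num
  rw [Finset.sum_congr rfl h2]
  refine sum_le_of_hasSum (h := fun m => (w m * chi0 m - w m * chi1 m) / 2) ?_ hs T
    (fun m hm => (hT m hm).1)
  intro n
  have := h0 n
  rw [chi0_apply, chi1_apply]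
  split_ifs <;> linarith

/-- Sums over smooth numbers divisible by `3`. -/
theorem sum_zero_le (w : ℕ →* ℝ) (h0 : ∀ n, 0 ≤ w n) (h1 : ∀ p : ℕ, p.Prime → w p < 1) (N : ℕ)
    (T : Finset ℕ) (hT : ∀ m ∈ T, m ∈ N.smoothNumbers ∧ m % 3 = 0) :
    ∑ m ∈ T, w m ≤ ∏ p ∈ N.primesBelow, (1 - w p)⁻¹ -
      ∏ p ∈ N.primesBelow, (1 - w p * chi0 p)⁻¹ := by
  have ha : ∀ p : ℕ, p.Prime → |w p * chi0 p| < 1 := by
    intro p hp
    rw [chi0_apply]
    split_ifs
    · simp
    · rw [mul_one, abs_of_nonneg (h0 p)]; exact h1 p hp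
  have hsa := hasSum_smooth (w * chi0) (by simpa using ha) N
  have hsb := hasSum_smooth w (fun p hp => by rw [abs_of_nonneg (h0 p)]; exact h1 p hp) N
  have hs := hsb.sub hsa
  simp only [MonoidHom.mul_apply] at hs
  have h2 : ∀ m ∈ T, w m = w m - w m * chi0 m := by
    intro m hm
    have := (hT m hm).2
    rw [chi0_apply, this]
    norm_num
  rw [Finset.sum_congr rfl h2]
  refine sum_le_of_hasSum (h := fun m => w m - w m * chi0 m) ?_ hs T
    (fun m hm => (hT m hm).1)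
  intro n
  have := h0 n
  rw [chi0_apply]
  split_ifs <;> linarith

/-- All sums over smooth numbers. -/
theorem sum_all_le (w : ℕ →* ℝ) (h0 : ∀ n, 0 ≤ w n) (h1 : ∀ p : ℕ, p.Prime → w p < 1) (N : ℕ)
    (T : Finset ℕ) (hT : ∀ m ∈ T, m ∈ N.smoothNumbers) :
    ∑ m ∈ T, w m ≤ ∏ p ∈ N.primesBelow, (1 - w p)⁻¹ :=
  sum_le_of_hasSum h0
    (hasSum_smooth w (fun p hp => by rw [abs_of_nonneg (h0 p)]; exact h1 p hp) N) T hT

/-- Bound for a product of Euler factors. -/
theorem prod_inv_le {ι : Type*} (P : Finset ι) (x : ι → ℝ) {δ : ℝ} (hδ : δ < 1)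
    (h0 : ∀ p ∈ P, 0 ≤ x p) (h1 : ∀ p ∈ P, x p ≤ δ) :
    ∏ p ∈ P, (1 - x p)⁻¹ ≤ Real.exp ((1 - δ)⁻¹ * ∑ p ∈ P, x p) := by
  rw [Finset.mul_sum, Real.exp_sum]
  refine Finset.prod_le_prod (fun p hp => ?_) (fun p hp => ?_)
  · have := h1 p hp
    exact inv_nonneg.2 (by linarith)
  · have ha := h0 p hp
    have hb := h1 p hp
    have hc : 0 < 1 - x p := by linarith
    have hd : 0 < 1 - δ := by linarith
    have h2 : (1 - x p)⁻¹ = x p * (1 - x p)⁻¹ + 1 := by
      field_simp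
      ring
    rw [h2]
    refine (Real.add_one_le_exp _).trans (Real.exp_le_exp.2 ?_)
    rw [mul_comm]
    refine mul_le_mul_of_nonneg_right ?_ ha
    exact inv_anti₀ hd (by linarith)

/-- Lower bound for a product with signs. -/
theorem prod_one_add_inv_ge {ι : Type*} (P : Finset ι) (x : ι → ℝ) (h0 : ∀ p ∈ P, 0 ≤ x p) :
    Real.exp (-∑ p ∈ P, x p) ≤ ∏ p ∈ P, (1 + x p)⁻¹ := by
  rw [← Finset.sum_neg_distrib, Real.exp_sum]
  refine Finset.prod_le_prod (fun p _ => (Real.exp_pos _).le) (fun p hp => ?_)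
  have ha := h0 p hp
  rw [Real.exp_neg]
  refine inv_anti₀ (by linarith) ?_
  have := Real.add_one_le_exp (x p)
  linarith

end Pool.Agent.Helper42.Tot
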