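import Pool.Agent.Helper42.Tot.Gen

/-!
# The weight for the lower bound
-/

namespace Pool.Agent.Helper42.Tot

open Finset

/-- The weight `n ^ 5 * 400 ^ (- f n)`. -/
noncomputable def w1 : ℕ →* ℝ where
  toFun n := (n : ℝ) ^ 5 * (1 / 400) ^ f n
  map_one' := by simp [f_one]
  map_mul' a b := by
    by_cases ha : a = 0
    · subst ha; simp
    by_cases hb : b = 0
    · subst hb; simp
    rw [f_mul ha hb, pow_add, Nat.cast_mul]
    ring

theorem w1_apply (n : ℕ) : w1 n = (n : ℝ) ^ 5 * (1 / 400) ^ f n := rfl

theorem w1_nonneg (n : ℕ) : 0 ≤ w1 n := by rw [w1_apply]; positivity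

theorem f_three : f 3 = 1 := by
  rw [f_odd_prime Nat.prime_three (by norm_num)]; exact f_two

theorem f_four : f 4 = 2 := by
  have := f_mul (a := 2) (b := 2) (by norm_num) (by norm_num)
  rw [f_two] at this; exact this

theorem f_five : f 5 = 2 := by
  rw [f_odd_prime (by norm_num) (by norm_num)]; exact f_four

theorem f_six : f 6 = 2 := by
  have := f_mul (a := 2) (b := 3) (by norm_num) (by norm_num)
  rw [f_two, f_three] at this; exact this

theorem f_seven : f 7 = 2 := by
  rw [f_odd_prime (by norm_num) (by norm_num)]; exact f_six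

theorem f_ten : f 10 = 3 := by
  have := f_mul (a := 2) (b := 5) (by norm_num) (by norm_num)
  rw [f_two, f_five] at this; exact this

theorem f_eleven : f 11 = 3 := by
  rw [f_odd_prime (by norm_num) (by norm_num)]; exact f_ten

/-- The recursion at primes. -/
theorem f_prime_succ {m : ℕ} (hp : (2 * m + 1).Prime) (hm : m ≠ 0) :
    f (2 * m + 1) = f m + 1 := by
  rw [f_odd_prime hp (by omega)]
  have : 2 * m + 1 - 1 = 2 * m := by omega
  rw [this, f_mul (by norm_num) hm, f_two]
  ring

theorem w1_two : w1 2 = 2 / 25 := by rw [w1_apply, f_two]; norm_num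
theorem w1_three : w1 3 = 243 / 400 := by rw [w1_apply, f_three]; norm_num
theorem w1_four : w1 4 = 4 / 625 := by rw [w1_apply, f_four]; norm_num
theorem w1_five : w1 5 = 5 / 256 := by rw [w1_apply, f_five]; norm_num
theorem w1_seven : w1 7 = 16807 / 160000 := by rw [w1_apply, f_seven]; norm_num
theorem w1_eleven : w1 11 = 161051 / 64000000 := by rw [w1_apply, f_eleven]; norm_num

/-- The constant `(13 / 12) ^ 5 * 2 / 25`. -/
noncomputable def c1 : ℝ := (13 / 12) ^ 5 * (2 / 25)

theorem w1_prime_le {m : ℕ} (hp : (2 * m + 1).Prime) (hm : 6 ≤ m) :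
    w1 (2 * m + 1) ≤ c1 * w1 m := by
  rw [w1_apply, w1_apply, f_prime_succ hp (by omega), pow_succ, c1]
  have h1 : ((2 * m + 1 : ℕ) : ℝ) ≤ 13 / 12 * (2 * m) := by
    have : (6 : ℝ) ≤ m := by exact_mod_cast hm
    push_cast
    linarith
  have h2 : ((2 * m + 1 : ℕ) : ℝ) ^ 5 ≤ (13 / 12 * (2 * m)) ^ 5 :=
    pow_le_pow_left₀ (by positivity) h1 5
  have h3 : (0 : ℝ) ≤ (1 / 400) ^ f m := by positivity
  calc ((2 * m + 1 : ℕ) : ℝ) ^ 5 * ((1 / 400) ^ f m * (1 / 400))
      ≤ (13 / 12 * (2 * m)) ^ 5 * ((1 / 400) ^ f m * (1 / 400)) :=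
        mul_le_mul_of_nonneg_right h2 (by positivity)
    _ = (13 / 12) ^ 5 * (2 / 25) * ((m : ℝ) ^ 5 * (1 / 400) ^ f m) := by ring

theorem c1_lt : c1 < 1194 / 10000 := by unfold c1; norm_num

theorem c1_pos : 0 < c1 := by unfold c1; norm_num

/-- All values at positive integers are at most one, and small at primes. -/
theorem w1_le_one : ∀ n : ℕ, n ≠ 0 → w1 n ≤ 1 := by
  intro n
  induction n using Nat.strong_induction_on with
  | _ n ih =>
    intro hn
    by_cases h1 : n = 1
    · subst h1; simp
    obtain ⟨p, hp, hpn⟩ := Nat.exists_prime_and_dvd h1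
    obtain ⟨m, rfl⟩ := hpn
    have hm : m ≠ 0 := by rintro rfl; simp at hn
    have hwm : w1 m ≤ 1 := by
      refine ih m ?_ hm
      have := hp.two_le
      nlinarith [Nat.pos_of_ne_zero hm]
    rw [map_mul]
    have hwp : w1 p ≤ 1 := by
      by_cases hp2 : p = 2
      · rw [hp2, w1_two]; norm_num
      obtain ⟨k, hk⟩ : ∃ k, p = 2 * k + 1 := by
        obtain ⟨k, hk⟩ := hp.odd_of_ne_two hp2
        exact ⟨k, hk⟩
      rcases Nat.lt_or_ge k 6 with hk6 | hk6
      · interval_cases k
        · rw [hk] at hp; exact absurd hp (by norm_num)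
        · rw [hk]; norm_num [w1_three]
        · rw [hk]; norm_num [w1_five]
        · rw [hk]; norm_num [w1_seven]
        · rw [hk] at hp; exact absurd hp (by norm_num)
        · rw [hk]; norm_num [w1_eleven]
      · rw [hk] at hp ⊢
        refine (w1_prime_le hp hk6).trans ?_
        have h2 : w1 k ≤ 1 := by
          refine ih k ?_ (by omega)
          rw [hk]
          nlinarith [Nat.pos_of_ne_zero hm]
        have := c1_lt
        have := c1_pos
        have := w1_nonneg k
        nlinarith
    exact mul_le_one₀ hwp (w1_nonneg m) hwm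

theorem w1_prime_small {p : ℕ} (hp : p.Prime) (h : 13 ≤ p) : w1 p ≤ c1 := by
  obtain ⟨k, hk⟩ : ∃ k, p = 2 * k + 1 := by
    obtain ⟨k, hk⟩ := hp.odd_of_ne_two (by omega)
    exact ⟨k, hk⟩
  rw [hk] at hp h ⊢
  refine (w1_prime_le hp (by omega)).trans ?_
  have := w1_le_one k (by omega)
  have := c1_pos
  nlinarith

theorem w1_prime_lt_one {p : ℕ} (hp : p.Prime) : w1 p < 1 := by
  rcases Nat.lt_or_ge p 13 with h | h
  · interval_cases p
    all_goals first
      | (exfalso; revert hp; norm_num; done)
      | (rw [w1_two]; norm_num; done)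
      | (rw [w1_three]; norm_num; done)
      | (rw [w1_five]; norm_num; done)
      | (rw [w1_seven]; norm_num; done)
      | (rw [w1_eleven]; norm_num; done)
  · exact (w1_prime_small hp h).trans_lt (c1_lt.trans (by norm_num))

/-- The primes from `13` on below `N`. -/
def P13 (N : ℕ) : Finset ℕ := N.primesBelow.filter (fun p => 13 ≤ p)

theorem primesBelow_eq {N : ℕ} (hN : 12 ≤ N) :
    N.primesBelow = {2, 3, 5, 7, 11} ∪ P13 N := by
  ext p
  simp only [P13, mem_union, mem_filter, Nat.mem_primesBelow, mem_insert, mem_singleton]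
  constructor
  · rintro ⟨h1, h2⟩
    rcases Nat.lt_or_ge p 13 with h | h
    · left
      interval_cases p
      all_goals first
        | (exfalso; revert h2; norm_num; done)
        | simp
    · right; exact ⟨⟨h1, h2⟩, h⟩
  · rintro (h | ⟨h, _⟩)
    · rcases h with rfl | rfl | rfl | rfl | rfl <;> exact ⟨by omega, by norm_num⟩
    · exact h

/-- Bound of the full product by the sum over the large primes. -/
theorem prod1_le {N : ℕ} (hN : 12 ≤ N) {q : ℝ} (hq : ∑ p ∈ P13 N, w1 p ≤ q) :
    ∏ p ∈ N.primesBelow, (1 - w1 p)⁻¹ ≤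
      3165 / 1000 * Real.exp (1136 / 1000 * q) := by
  classical
  rw [primesBelow_eq hN, Finset.prod_union]
  · have h1 : ∏ p ∈ ({2, 3, 5, 7, 11} : Finset ℕ), (1 - w1 p)⁻¹ ≤ 3165 / 1000 := by
      rw [Finset.prod_insert (by norm_num), Finset.prod_insert (by norm_num),
        Finset.prod_insert (by norm_num), Finset.prod_insert (by norm_num),
        Finset.prod_singleton, w1_two, w1_three, w1_five, w1_seven, w1_eleven]
      norm_num
    have h2 := prod_inv_le (P13 N) w1 (δ := c1) (c1_lt.trans (by norm_num))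
      (fun p _ => w1_nonneg p)
      (fun p hp => by
        simp only [P13, mem_filter, Nat.mem_primesBelow] at hp
        exact w1_prime_small hp.1.2 hp.2)
    have h3 : (1 - c1)⁻¹ * ∑ p ∈ P13 N, w1 p ≤ 1136 / 1000 * q := by
      have h4 : (1 - c1)⁻¹ ≤ 1136 / 1000 := by
        have := c1_lt
        rw [inv_le_comm₀ (by linarith) (by norm_num)]
        norm_num
        linarith
      have h5 : 0 ≤ ∑ p ∈ P13 N, w1 p := Finset.sum_nonneg fun p _ => w1_nonneg p
      calc (1 - c1)⁻¹ * ∑ p ∈ P13 N, w1 p ≤ 1136 / 1000 * ∑ p ∈ P13 N, w1 p :=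
            mul_le_mul_of_nonneg_right h4 h5
        _ ≤ _ := mul_le_mul_of_nonneg_left hq (by norm_num)
    have h6 : 0 ≤ ∏ p ∈ P13 N, (1 - w1 p)⁻¹ := by
      refine Finset.prod_nonneg fun p hp => ?_
      simp only [P13, mem_filter, Nat.mem_primesBelow] at hp
      have := w1_prime_lt_one hp.1.2
      exact inv_nonneg.2 (by linarith)
    exact mul_le_mul h1 (h2.trans (Real.exp_le_exp.2 h3)) h6 (by norm_num)
  · rw [Finset.disjoint_left]
    intro p hp hp'
    simp only [P13, mem_filter, Nat.mem_primesBelow] at hp'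
    simp only [mem_insert, mem_singleton] at hp
    omega

theorem exp_bound1 : Real.exp (1136 / 1000 * (3806 / 10000)) ≤ 1543 / 1000 := by
  have h := Real.exp_bound' (x := 1136 / 1000 * (3806 / 10000)) (by norm_num) (by norm_num)
    (n := 5) (by norm_num)
  refine h.trans ?_
  norm_num [Finset.sum_range_succ, Nat.factorial]

/-- The key bound. -/
theorem sum1_le (N : ℕ) : ∑ p ∈ P13 N, w1 p ≤ 3806 / 10000 := by
  classical
  induction N using Nat.strong_induction_on with
  | _ N ih =>
    rcases Nat.lt_or_ge N 14 with hN | hN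
    · have : P13 N = ∅ := by
        ext p
        simp only [P13, mem_filter, Nat.mem_primesBelow, notMem_empty, iff_false]
        omega
      rw [this, Finset.sum_empty]; norm_num
    · set M := max 12 ((N + 1) / 2) with hM
      have hMN : M < N := by omega
      have hM12 : 12 ≤ M := le_max_left _ _
      have hprod := prod1_le hM12 (ih M hMN)
      set T := (P13 N).image (fun p => (p - 1) / 2) with hT
      have hTmem : ∀ m ∈ T, 6 ≤ m ∧ m < M := by
        intro m hm
        rw [hT, mem_image] at hm
        obtain ⟨p, hp, rfl⟩ := hm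
        simp only [P13, mem_filter, Nat.mem_primesBelow] at hp
        omega
      have hsum : ∑ p ∈ P13 N, w1 p ≤ c1 * ∑ m ∈ T, w1 m := by
        rw [hT, Finset.sum_image, Finset.mul_sum]
        · refine Finset.sum_le_sum fun p hp => ?_
          simp only [P13, mem_filter, Nat.mem_primesBelow] at hp
          obtain ⟨k, hk⟩ := hp.1.2.odd_of_ne_two (by omega)
          have hk2 : (p - 1) / 2 = k := by omega
          rw [hk2]
          have hpr := hp.1.2
          rw [hk] at hpr ⊢
          exact w1_prime_le hpr (by omega)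
        · intro p hp q hq hpq
          simp only [P13, coe_filter, Set.mem_ofPred_eq, Nat.mem_primesBelow] at hp hq
          obtain ⟨k, hk⟩ := hp.1.2.odd_of_ne_two (by omega)
          obtain ⟨l, hl⟩ := hq.1.2.odd_of_ne_two (by omega)
          simp only at hpq
          omega
      have hdisj : Disjoint ({1, 2, 3, 4, 5} : Finset ℕ) T := by
        rw [Finset.disjoint_left]
        intro m hm hm'
        have := (hTmem m hm').1
        simp only [mem_insert, mem_singleton] at hm
        omega
      have hall := sum_all_le w1 w1_nonneg (fun p hp => w1_prime_lt_one hp) M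
        (({1, 2, 3, 4, 5} : Finset ℕ) ∪ T) (by
          intro m hm
          rw [mem_union] at hm
          refine Nat.mem_smoothNumbers_of_lt ?_ ?_
          · rcases hm with hm | hm
            · simp only [mem_insert, mem_singleton] at hm; omega
            · have := (hTmem m hm).1; omega
          · rcases hm with hm | hm
            · simp only [mem_insert, mem_singleton] at hm; omega
            · exact (hTmem m hm).2)
      rw [Finset.sum_union hdisj] at hall
      have hknown : ∑ m ∈ ({1, 2, 3, 4, 5} : Finset ℕ), w1 m ≥ 17134 / 10000 := by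
        rw [Finset.sum_insert (by norm_num), Finset.sum_insert (by norm_num),
          Finset.sum_insert (by norm_num), Finset.sum_insert (by norm_num),
          Finset.sum_singleton, w1_two, w1_three, w1_four, w1_five, map_one]
        norm_num
      have hexp := exp_bound1
      have h7 : ∑ m ∈ T, w1 m ≤ 3165 / 1000 * (1543 / 1000) - 17134 / 10000 := by
        have := hall.trans (hprod.trans (mul_le_mul_of_nonneg_left hexp (by norm_num)))
        linarith
      have h8 : 0 ≤ ∑ m ∈ T, w1 m := Finset.sum_nonneg fun m _ => w1_nonneg m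
      have h9 := c1_lt
      have h10 := c1_pos
      calc ∑ p ∈ P13 N, w1 p ≤ c1 * ∑ m ∈ T, w1 m := hsum
        _ ≤ 1194 / 10000 * ∑ m ∈ T, w1 m := mul_le_mul_of_nonneg_right h9.le h8
        _ ≤ 1194 / 10000 * (3165 / 1000 * (1543 / 1000) - 17134 / 10000) :=
            mul_le_mul_of_nonneg_left h7 (by norm_num)
        _ ≤ 3806 / 10000 := by norm_num

/-- The sum of the weights is bounded. -/
theorem sumW1_le (N : ℕ) : ∑ n ∈ Finset.Icc 1 N, w1 n ≤ 5 := by
  have h1 := sum_all_le w1 w1_nonneg (fun p hp => w1_prime_lt_one hp) (max 12 (N + 1))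
    (Finset.Icc 1 N) (by
      intro m hm
      rw [mem_Icc] at hm
      exact Nat.mem_smoothNumbers_of_lt (by omega) (by omega))
  have h2 := prod1_le (le_max_left 12 (N + 1)) (sum1_le _)
  have h3 := exp_bound1
  refine (h1.trans (h2.trans (mul_le_mul_of_nonneg_left h3 (by norm_num)))).trans ?_
  norm_num

end Pool.Agent.Helper42.Tot
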