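import Pool.Agent.Helper42.Tot.Up

/-!
# Bounds for the class of almost all integers
-/

namespace Pool.Agent.Helper42.Tot

open Finset

theorem log400 : Real.log 400 ≤ 5996 / 1000 := by
  have h1 : Real.log 403 ≤ 6 := by
    rw [Real.log_le_iff_le_exp (by norm_num)]
    have h2 : Real.exp 6 = Real.exp 1 ^ 6 := by rw [← Real.exp_nat_mul]; norm_num
    rw [h2]
    have h3 := Real.exp_one_gt_d9
    calc (403 : ℝ) ≤ (2.7182818283 : ℝ) ^ 6 := by norm_num
      _ ≤ Real.exp 1 ^ 6 := pow_le_pow_left₀ (by norm_num) h3.le 6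
  have h4 : Real.log (400 / 403) ≤ 400 / 403 - 1 := Real.log_le_sub_one_of_pos (by norm_num)
  have h5 : Real.log 400 = Real.log 403 + Real.log (400 / 403) := by
    rw [← Real.log_mul (by norm_num) (by norm_num)]; norm_num
  rw [h5]
  norm_num at h4 ⊢
  linarith

theorem log17200 : 14004 / 1000 ≤ 359 / 250 * Real.log 17200 := by
  have h1 : (485 : ℝ) / 10000 ≤ Real.log (17200 / 16384) := by
    rw [Real.le_log_iff_exp_le (by norm_num)]
    have h := Real.exp_bound' (x := 485 / 10000) (by norm_num) (by norm_num)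
      (n := 3) (by norm_num)
    refine h.trans ?_
    norm_num [Finset.sum_range_succ, Nat.factorial]
  have h2 : Real.log 17200 = 14 * Real.log 2 + Real.log (17200 / 16384) := by
    have h3 : (14 : ℝ) * Real.log 2 = Real.log 16384 := by
      have h4 : (16384 : ℝ) = 2 ^ 14 := by norm_num
      rw [h4, Real.log_pow]
      norm_num
    rw [h3, ← Real.log_mul (by norm_num) (by norm_num)]
    norm_num
  have h5 := Real.log_two_gt_d9
  rw [h2]
  linarith

/-- Integers with a small value of `f` have a large weight. -/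
theorem low_weight {n : ℕ} (hn : 2 ≤ n) (h : (f n : ℝ) < Real.log n) :
    (n : ℝ) ^ (-(996 / 1000 : ℝ)) ≤ w1 n := by
  have hn0 : (0 : ℝ) < n := by positivity
  have hlog : 0 ≤ Real.log n := Real.log_natCast_nonneg n
  rw [w1_apply]
  have h1 : (n : ℝ) ^ 5 * (1 / 400) ^ f n =
      Real.exp (5 * Real.log n - f n * Real.log 400) := by
    rw [Real.exp_sub, mul_comm (5 : ℝ), mul_comm (f n : ℝ), Real.exp_mul, Real.exp_mul,
      Real.exp_log hn0, Real.exp_log (by norm_num), Real.rpow_natCast]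
    have : (n : ℝ) ^ (5 : ℝ) = (n : ℝ) ^ 5 := by
      rw [← Real.rpow_natCast]; norm_num
    rw [this, one_div, inv_pow, div_eq_mul_inv]
  rw [h1, Real.rpow_def_of_pos hn0, Real.exp_le_exp]
  have h2 := log400
  have h3 : (0 : ℝ) ≤ f n := by positivity
  have h4 : (f n : ℝ) * Real.log 400 ≤ Real.log n * (5996 / 1000) :=
    mul_le_mul h.le h2 (Real.log_nonneg (by norm_num)) hlog
  linarith

/-- Integers with a large value of `f` have a large weight. -/
theorem up_weight {n : ℕ} (hn : 2 ≤ n) (h : 359 / 250 * Real.log n < (f n : ℝ) + 1) :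
    (n : ℝ) ^ (-(996 / 1000 : ℝ)) ≤ 17200 * w2 n := by
  have hn0 : (0 : ℝ) < n := by positivity
  have hlog : 0 ≤ Real.log n := Real.log_natCast_nonneg n
  rw [w2_apply]
  have h1 : 17200 * ((17200 : ℝ) ^ f n / (n : ℝ) ^ 15) =
      Real.exp (((f n : ℝ) + 1) * Real.log 17200 - 15 * Real.log n) := by
    rw [Real.exp_sub, mul_comm (15 : ℝ), mul_comm ((f n : ℝ) + 1), Real.exp_mul, Real.exp_mul,
      Real.exp_log hn0, Real.exp_log (by norm_num)]
    have h2 : (n : ℝ) ^ (15 : ℝ) = (n : ℝ) ^ 15 := by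
      rw [← Real.rpow_natCast]; norm_num
    have h3 : (17200 : ℝ) ^ ((f n : ℝ) + 1) = 17200 ^ f n * 17200 := by
      rw [Real.rpow_add (by norm_num), Real.rpow_natCast, Real.rpow_one]
    rw [h2, h3]
    ring
  rw [h1, Real.rpow_def_of_pos hn0, Real.exp_le_exp]
  have h2 := log17200
  have h3 : 0 < Real.log 17200 := Real.log_pos (by norm_num)
  have h4 : Real.log n * (14004 / 1000) ≤ ((f n : ℝ) + 1) * Real.log 17200 := by
    calc Real.log n * (14004 / 1000) ≤ Real.log n * (359 / 250 * Real.log 17200) :=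
          mul_le_mul_of_nonneg_left h2 hlog
      _ = (359 / 250 * Real.log n) * Real.log 17200 := by ring
      _ ≤ _ := mul_le_mul_of_nonneg_right h.le h3.le
  linarith

/-- The exceptional integers. -/
def Bad (n : ℕ) : Prop := ¬ (Real.log n ≤ (cls n : ℝ) ∧ (cls n : ℝ) ≤ 359 / 250 * Real.log n)

theorem bad_weight {n : ℕ} (hn : 2 ≤ n) (h : Bad n) :
    (n : ℝ) ^ (-(996 / 1000 : ℝ)) ≤ w1 n + 17200 * w2 n := by
  obtain ⟨hb1, hb2⟩ := cls_bounds hn
  have h1 : (f n : ℝ) ≤ cls n := by exact_mod_cast hb1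
  have h2 : (cls n : ℝ) ≤ f n + 1 := by exact_mod_cast hb2
  have h3 := w1_nonneg n
  have h4 := w2_nonneg n
  unfold Bad at h
  rw [not_and_or] at h
  rcases h with h | h
  · have := low_weight hn (lt_of_le_of_lt h1 (not_le.1 h))
    linarith
  · have := up_weight hn (lt_of_lt_of_le (not_le.1 h) h2)
    linarith

theorem main (N : ℕ) : (({n : ℕ | 2 ≤ n ∧ n ≤ N ∧ Bad n}.ncard : ℕ) : ℝ) ≤
    51605 * (N : ℝ) ^ (996 / 1000 : ℝ) := by
  classical
  rcases Nat.eq_zero_or_pos N with rfl | hN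
  · have : {n : ℕ | 2 ≤ n ∧ n ≤ 0 ∧ Bad n} = ∅ := by
      ext n; simp only [Set.mem_ofPred_eq, Set.mem_empty_iff_false, iff_false]; omega
    rw [this]
    simp only [Set.ncard_empty, Nat.cast_zero]
    positivity
  set F := (Finset.Icc 1 N).filter (fun n => 2 ≤ n ∧ Bad n) with hF
  have hset : {n : ℕ | 2 ≤ n ∧ n ≤ N ∧ Bad n} = (F : Set ℕ) := by
    ext n
    simp only [hF, Set.mem_ofPred_eq, coe_filter, mem_Icc]
    constructor
    · rintro ⟨h1, h2, h3⟩; exact ⟨⟨by omega, h2⟩, h1, h3⟩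
    · rintro ⟨⟨_, h2⟩, h1, h3⟩; exact ⟨h1, h2, h3⟩
  rw [hset, Set.ncard_coe_finset]
  have hN0 : (0 : ℝ) < N := by exact_mod_cast hN
  have h1 : ∀ n ∈ F, (N : ℝ) ^ (-(996 / 1000 : ℝ)) ≤ w1 n + 17200 * w2 n := by
    intro n hn
    simp only [hF, mem_filter, mem_Icc] at hn
    refine le_trans ?_ (bad_weight hn.2.1 hn.2.2)
    have hn0 : (0 : ℝ) < n := by exact_mod_cast (show 0 < n by omega)
    exact Real.rpow_le_rpow_of_nonpos hn0 (by exact_mod_cast hn.1.2) (by norm_num)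
  have h2 : (F.card : ℝ) * (N : ℝ) ^ (-(996 / 1000 : ℝ)) ≤ 51605 := by
    have h3 : (F.card : ℝ) * (N : ℝ) ^ (-(996 / 1000 : ℝ)) ≤
        ∑ n ∈ F, (w1 n + 17200 * w2 n) := by
      rw [← nsmul_eq_mul]
      exact Finset.card_nsmul_le_sum _ _ _ h1
    have h4 : ∑ n ∈ F, (w1 n + 17200 * w2 n) ≤
        ∑ n ∈ Finset.Icc 1 N, (w1 n + 17200 * w2 n) :=
      Finset.sum_le_sum_of_subset_of_nonneg (Finset.filter_subset _ _)
        (fun n _ _ => by have := w1_nonneg n; have := w2_nonneg n; positivity)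
    have h5 : ∑ n ∈ Finset.Icc 1 N, (w1 n + 17200 * w2 n) =
        ∑ n ∈ Finset.Icc 1 N, w1 n + 17200 * ∑ n ∈ Finset.Icc 1 N, w2 n := by
      rw [Finset.sum_add_distrib, Finset.mul_sum]
    have h6 := sumW1_le N
    have h7 := sumW2_le N
    linarith
  rw [Real.rpow_neg hN0.le] at h2
  have h8 : (0 : ℝ) < (N : ℝ) ^ (996 / 1000 : ℝ) := Real.rpow_pos_of_pos hN0 _
  rwa [mul_inv_le_iff₀ h8] at h2

end Pool.Agent.Helper42.Tot
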