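import Pool.Agent.Helper42.Tot.Low

/-!
# The weight for the upper bound
-/

namespace Pool.Agent.Helper42.Tot

open Finset

/-- The weight `17200 ^ f n / n ^ 15`. -/
noncomputable def w2 : ℕ →* ℝ where
  toFun n := 17200 ^ f n / (n : ℝ) ^ 15
  map_one' := by simp [f_one]
  map_mul' a b := by
    by_cases ha : a = 0
    · subst ha; simp
    by_cases hb : b = 0
    · subst hb; simp
    rw [f_mul ha hb, pow_add, Nat.cast_mul, mul_pow]
    field_simp

theorem w2_apply (n : ℕ) : w2 n = 17200 ^ f n / (n : ℝ) ^ 15 := rfl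

theorem w2_nonneg (n : ℕ) : 0 ≤ w2 n := by rw [w2_apply]; positivity

theorem w2_two : w2 2 = 1075 / 2048 := by rw [w2_apply, f_two]; norm_num

theorem w2_three : w2 3 = 17200 / 14348907 := by rw [w2_apply, f_three]; norm_num

theorem w2_pow_two (j : ℕ) : w2 (2 ^ j) = (1075 / 2048) ^ j := by
  rw [map_pow, w2_two]

theorem w2_prime_le {m : ℕ} (hp : (2 * m + 1).Prime) (hm : m ≠ 0) :
    w2 (2 * m + 1) ≤ 1075 / 2048 * w2 m := by
  rw [w2_apply, w2_apply, f_prime_succ hp hm, pow_succ]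
  have hm0 : (0 : ℝ) < m := by exact_mod_cast Nat.pos_of_ne_zero hm
  have h1 : (2 * (m : ℝ)) ^ 15 ≤ ((2 * m + 1 : ℕ) : ℝ) ^ 15 := by
    refine pow_le_pow_left₀ (by positivity) ?_ 15
    push_cast; linarith
  calc (17200 : ℝ) ^ f m * 17200 / ((2 * m + 1 : ℕ) : ℝ) ^ 15
      ≤ 17200 ^ f m * 17200 / (2 * (m : ℝ)) ^ 15 :=
        div_le_div_of_nonneg_left (by positivity) (by positivity) h1
    _ = 1075 / 2048 * (17200 ^ f m / (m : ℝ) ^ 15) := by
        field_simp
        norm_num

theorem w2_le_one : ∀ n : ℕ, n ≠ 0 → w2 n ≤ 1 := by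
  intro n
  induction n using Nat.strong_induction_on with
  | _ n ih =>
    intro hn
    by_cases h1 : n = 1
    · subst h1; simp
    obtain ⟨p, hp, hpn⟩ := Nat.exists_prime_and_dvd h1
    obtain ⟨m, rfl⟩ := hpn
    have hm : m ≠ 0 := by rintro rfl; simp at hn
    have hwm : w2 m ≤ 1 := by
      refine ih m ?_ hm
      have := hp.two_le
      nlinarith [Nat.pos_of_ne_zero hm]
    rw [map_mul]
    have hwp : w2 p ≤ 1 := by
      by_cases hp2 : p = 2
      · rw [hp2, w2_two]; norm_num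
      obtain ⟨k, hk⟩ := hp.odd_of_ne_two hp2
      have hk0 : k ≠ 0 := by
        rintro rfl
        rw [hk] at hp; exact absurd hp (by norm_num)
      rw [hk] at hp ⊢
      refine (w2_prime_le hp hk0).trans ?_
      have h2 : w2 k ≤ 1 := by
        refine ih k ?_ hk0
        rw [hk]
        nlinarith [Nat.pos_of_ne_zero hm]
      have := w2_nonneg k
      nlinarith
    exact mul_le_one₀ hwp (w2_nonneg m) hwm

theorem f_fermat {i : ℕ} (hi : i ≠ 0) (hp : (2 ^ i + 1).Prime) : f (2 ^ i + 1) = i := by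
  have h2 : (2 : ℕ) ^ i ≠ 1 := by
    intro h
    have : 1 < 2 ^ i := Nat.one_lt_two_pow hi
    omega
  rw [f_odd_prime hp (by omega), Nat.add_sub_cancel, f_pow (by norm_num), f_two, mul_one]

/-- The weight of all odd primes is small. -/
theorem w2_prime_small : ∀ p : ℕ, p.Prime → 3 ≤ p → w2 p ≤ 31 / 1000 := by
  intro p
  induction p using Nat.strong_induction_on with
  | _ p ih =>
    intro hp h3
    obtain ⟨k, hk⟩ := hp.odd_of_ne_two (by omega)
    have hk0 : k ≠ 0 := by omega
    rcases Nat.eq_two_pow_or_exists_odd_prime_and_dvd k with ⟨j, hj⟩ | ⟨q, hq, hqk, hqo⟩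
    · have hpj : p = 2 ^ (j + 1) + 1 := by rw [hk, hj, pow_succ]; ring
      rcases Nat.lt_or_ge j 5 with h5 | h5
      · have hf : f p = j + 1 := by
          rw [hpj] at hp ⊢
          exact f_fermat (by omega) hp
        rw [w2_apply, hf, hpj]
        interval_cases j <;> norm_num
      · rw [hk] at hp ⊢
        refine (w2_prime_le hp hk0).trans ?_
        rw [hj, w2_pow_two]
        have : ((1075 : ℝ) / 2048) ^ j ≤ (1075 / 2048) ^ 5 :=
          pow_le_pow_of_le_one (by norm_num) (by norm_num) h5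
        have h6 : (1075 : ℝ) / 2048 * (1075 / 2048) ^ 5 ≤ 31 / 1000 := by norm_num
        linarith [mul_le_mul_of_nonneg_left this (show (0 : ℝ) ≤ 1075 / 2048 by norm_num)]
    · obtain ⟨m, rfl⟩ := hqk
      have hm : m ≠ 0 := by rintro rfl; simp at hk0
      have hq3 : 3 ≤ q := by
        have := hq.two_le
        rcases hqo with ⟨r, hr⟩; omega
      have hqp : q < p := by
        rw [hk]
        nlinarith [Nat.pos_of_ne_zero hm]
      have h4 := ih q hqp hq hq3
      rw [hk] at hp ⊢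
      refine (w2_prime_le hp hk0).trans ?_
      rw [map_mul]
      have h5 := w2_le_one m hm
      have h6 := w2_nonneg m
      have h7 := w2_nonneg q
      have h8 : w2 q * w2 m ≤ 31 / 1000 := by nlinarith
      nlinarith [mul_nonneg h7 h6]

theorem w2_prime_lt_one {p : ℕ} (hp : p.Prime) : w2 p < 1 := by
  rcases Nat.lt_or_ge p 3 with h | h
  · have : p = 2 := by have := hp.two_le; omega
    rw [this, w2_two]; norm_num
  · exact (w2_prime_small p hp h).trans_lt (by norm_num)

/-- The primes from `5` on below `N`. -/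
def P5 (N : ℕ) : Finset ℕ := N.primesBelow.filter (fun p => 5 ≤ p)

/-- Those congruent to `2` modulo `3`. -/
def P5a (N : ℕ) : Finset ℕ := (P5 N).filter (fun p => p % 3 = 2)

/-- Those congruent to `1` modulo `3`. -/
def P5b (N : ℕ) : Finset ℕ := (P5 N).filter (fun p => p % 3 = 1)

theorem mem_P5 {N p : ℕ} : p ∈ P5 N ↔ (p < N ∧ p.Prime) ∧ 5 ≤ p := by
  simp [P5, Nat.mem_primesBelow]

theorem mod_of_mem {N p : ℕ} (h : p ∈ P5 N) : p % 3 = 1 ∨ p % 3 = 2 := by
  rw [mem_P5] at h
  have h0 : p % 3 ≠ 0 := by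
    intro h0
    have h1 : 3 ∣ p := Nat.dvd_of_mod_eq_zero h0
    rcases (Nat.dvd_prime h.1.2).1 h1 with h2 | h2 <;> omega
  omega

theorem P5_eq (N : ℕ) : P5 N = P5a N ∪ P5b N := by
  ext p
  simp only [P5a, P5b, mem_union, mem_filter]
  constructor
  · intro h
    rcases mod_of_mem h with h1 | h1
    · exact Or.inr ⟨h, h1⟩
    · exact Or.inl ⟨h, h1⟩
  · rintro (h | h) <;> exact h.1

theorem P5_disj (N : ℕ) : Disjoint (P5a N) (P5b N) := by
  rw [Finset.disjoint_left]
  intro p hp hp'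
  simp only [P5a, P5b, mem_filter] at hp hp'
  omega

theorem primesBelow_eq2 {N : ℕ} (hN : 4 ≤ N) : N.primesBelow = {2, 3} ∪ P5 N := by
  ext p
  simp only [mem_P5, mem_union, Nat.mem_primesBelow, mem_insert, mem_singleton]
  constructor
  · rintro ⟨h1, h2⟩
    rcases Nat.lt_or_ge p 5 with h | h
    · left
      interval_cases p
      all_goals first
        | (exfalso; revert h2; norm_num; done)
        | simp
    · right; exact ⟨⟨h1, h2⟩, h⟩
  · rintro (h | ⟨h, _⟩)
    · rcases h with rfl | rfl <;> exact ⟨by omega, by norm_num⟩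
    · exact h

theorem disj2 (N : ℕ) : Disjoint ({2, 3} : Finset ℕ) (P5 N) := by
  rw [Finset.disjoint_left]
  intro p hp hp'
  rw [mem_P5] at hp'
  simp only [mem_insert, mem_singleton] at hp
  omega

theorem prodP5_le {N : ℕ} {S R : ℝ} (hS : ∑ p ∈ P5a N, w2 p ≤ S) (hR : ∑ p ∈ P5b N, w2 p ≤ R) :
    ∏ p ∈ P5 N, (1 - w2 p)⁻¹ ≤ Real.exp (1032 / 1000 * (S + R)) := by
  refine (prod_inv_le (P5 N) w2 (δ := 31 / 1000) (by norm_num) (fun p _ => w2_nonneg p)
    (fun p hp => by
      rw [mem_P5] at hp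
      exact w2_prime_small p hp.1.2 (by omega))).trans (Real.exp_le_exp.2 ?_)
  rw [P5_eq, Finset.sum_union (P5_disj N)]
  have h1 : 0 ≤ ∑ p ∈ P5a N, w2 p := Finset.sum_nonneg fun p _ => w2_nonneg p
  have h2 : 0 ≤ ∑ p ∈ P5b N, w2 p := Finset.sum_nonneg fun p _ => w2_nonneg p
  have h3 : (1 - (31 : ℝ) / 1000)⁻¹ ≤ 1032 / 1000 := by norm_num
  exact mul_le_mul h3 (add_le_add hS hR) (add_nonneg h1 h2) (by norm_num)

theorem prodP5_pos (N : ℕ) : 0 < ∏ p ∈ P5 N, (1 - w2 p)⁻¹ := by
  refine Finset.prod_pos fun p hp => ?_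
  rw [mem_P5] at hp
  have := w2_prime_lt_one hp.1.2
  exact inv_pos.2 (by linarith)

/-- The product with the principal character. -/
theorem prodA_eq {N : ℕ} (hN : 4 ≤ N) : ∏ p ∈ N.primesBelow, (1 - w2 p * chi0 p)⁻¹ =
    2048 / 973 * ∏ p ∈ P5 N, (1 - w2 p)⁻¹ := by
  rw [primesBelow_eq2 hN, Finset.prod_union (disj2 N), Finset.prod_pair (by norm_num)]
  congr 1
  · rw [chi0_apply, chi0_apply, w2_two]; norm_num
  · refine Finset.prod_congr rfl fun p hp => ?_
    rw [chi0_apply]
    rcases mod_of_mem hp with h | h <;> rw [h] <;> simp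

/-- The full product. -/
theorem prodC_eq {N : ℕ} (hN : 4 ≤ N) : ∏ p ∈ N.primesBelow, (1 - w2 p)⁻¹ =
    2048 / 973 * (14348907 / 14331707) * ∏ p ∈ P5 N, (1 - w2 p)⁻¹ := by
  rw [primesBelow_eq2 hN, Finset.prod_union (disj2 N), Finset.prod_pair (by norm_num)]
  congr 1
  rw [w2_two, w2_three]; norm_num

/-- The product with the nontrivial character. -/
theorem prodB_ge {N : ℕ} (hN : 4 ≤ N) {S : ℝ} (hS : ∑ p ∈ P5a N, w2 p ≤ S) :
    2048 / 3123 * Real.exp (-S) ≤ ∏ p ∈ N.primesBelow, (1 - w2 p * chi1 p)⁻¹ := by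
  rw [primesBelow_eq2 hN, Finset.prod_union (disj2 N), Finset.prod_pair (by norm_num), P5_eq,
    Finset.prod_union (P5_disj N)]
  have h1 : (1 - w2 2 * chi1 2)⁻¹ * (1 - w2 3 * chi1 3)⁻¹ = 2048 / 3123 := by
    rw [chi1_apply, chi1_apply, w2_two]; norm_num
  have h2 : ∏ p ∈ P5a N, (1 - w2 p * chi1 p)⁻¹ = ∏ p ∈ P5a N, (1 + w2 p)⁻¹ := by
    refine Finset.prod_congr rfl fun p hp => ?_
    simp only [P5a, mem_filter] at hp
    rw [chi1_apply, hp.2]; norm_num
  have h3 : (1 : ℝ) ≤ ∏ p ∈ P5b N, (1 - w2 p * chi1 p)⁻¹ := by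
    refine Finset.one_le_prod fun p hp => ?_
    simp only [P5b, mem_filter, mem_P5] at hp
    rw [chi1_apply, hp.2]
    have h4 := w2_prime_lt_one hp.1.1.2
    have h5 := w2_nonneg p
    simp only [one_ne_zero, if_false, if_true, mul_one]
    rw [one_le_inv₀ (by linarith)]
    linarith
  rw [h1, h2]
  have h6 := prod_one_add_inv_ge (P5a N) w2 (fun p _ => w2_nonneg p)
  have h7 : Real.exp (-S) ≤ ∏ p ∈ P5a N, (1 + w2 p)⁻¹ :=
    (Real.exp_le_exp.2 (neg_le_neg hS)).trans h6
  have h8 : 0 ≤ ∏ p ∈ P5a N, (1 + w2 p)⁻¹ := (Real.exp_pos _).le.trans h7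
  refine mul_le_mul_of_nonneg_left ?_ (by norm_num)
  calc Real.exp (-S) ≤ ∏ p ∈ P5a N, (1 + w2 p)⁻¹ := h7
    _ ≤ (∏ p ∈ P5a N, (1 + w2 p)⁻¹) * ∏ p ∈ P5b N, (1 - w2 p * chi1 p)⁻¹ :=
        le_mul_of_one_le_right h8 h3

theorem exp_bound2 : Real.exp (1032 / 1000 * (1 / 4 + 18 / 10000)) ≤ 12968 / 10000 := by
  have h := Real.exp_bound' (x := 1032 / 1000 * (1 / 4 + 18 / 10000)) (by norm_num) (by norm_num)
    (n := 6) (by norm_num)
  refine h.trans ?_
  norm_num [Finset.sum_range_succ, Nat.factorial]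

theorem exp_bound3 : (7788 : ℝ) / 10000 ≤ Real.exp (-(1 / 4)) := by
  have h := Real.exp_bound' (x := 1 / 4) (by norm_num) (by norm_num) (n := 6) (by norm_num)
  rw [Real.exp_neg]
  rw [le_inv_comm₀ (by norm_num) (Real.exp_pos _)]
  refine h.trans ?_
  norm_num [Finset.sum_range_succ, Nat.factorial]

/-- The half of a prime. -/
theorem half_spec {N p : ℕ} (hp : p ∈ P5 N) : ∃ k, p = 2 * k + 1 ∧ (p - 1) / 2 = k ∧ 2 ≤ k := by
  rw [mem_P5] at hp
  obtain ⟨k, hk⟩ := hp.1.2.odd_of_ne_two (by omega)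
  exact ⟨k, hk, by omega, by omega⟩

theorem half_injOn (N : ℕ) : Set.InjOn (fun p : ℕ => (p - 1) / 2) (P5 N : Set ℕ) := by
  intro p hp q hq hpq
  obtain ⟨k, h1, h2, _⟩ := half_spec hp
  obtain ⟨l, h3, h4, _⟩ := half_spec hq
  simp only at hpq
  omega

theorem sum_half_le {N : ℕ} {Q : Finset ℕ} (hQ : Q ⊆ P5 N) :
    ∑ p ∈ Q, w2 p ≤ 1075 / 2048 * ∑ m ∈ Q.image (fun p => (p - 1) / 2), w2 m := by
  rw [Finset.sum_image ((half_injOn N).mono (by exact_mod_cast hQ)), Finset.mul_sum]
  refine Finset.sum_le_sum fun p hp => ?_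
  obtain ⟨k, h1, h2, h3⟩ := half_spec (hQ hp)
  have h4 := mem_P5.1 (hQ hp)
  rw [h2]
  rw [h1] at h4 ⊢
  exact w2_prime_le h4.1.2 (by omega)

/-- The powers of two with odd exponent below `17`. -/
def K : Finset ℕ := {2, 8, 32, 128, 512, 2048, 8192, 32768}

theorem sumK : (72450 : ℝ) / 100000 ≤ ∑ m ∈ K, w2 m := by
  have h : ∀ j : ℕ, w2 (2 ^ j) = (1075 / 2048) ^ j := w2_pow_two
  have e1 : w2 2 = (1075 / 2048) ^ 1 := by rw [← h]; norm_num
  have e2 : w2 8 = (1075 / 2048) ^ 3 := by rw [← h]; norm_num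
  have e3 : w2 32 = (1075 / 2048) ^ 5 := by rw [← h]; norm_num
  have e4 : w2 128 = (1075 / 2048) ^ 7 := by rw [← h]; norm_num
  have e5 : w2 512 = (1075 / 2048) ^ 9 := by rw [← h]; norm_num
  have e6 : w2 2048 = (1075 / 2048) ^ 11 := by rw [← h]; norm_num
  have e7 : w2 8192 = (1075 / 2048) ^ 13 := by rw [← h]; norm_num
  have e8 : w2 32768 = (1075 / 2048) ^ 15 := by rw [← h]; norm_num
  unfold K
  rw [Finset.sum_insert (by norm_num), Finset.sum_insert (by norm_num),
    Finset.sum_insert (by norm_num), Finset.sum_insert (by norm_num),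
    Finset.sum_insert (by norm_num), Finset.sum_insert (by norm_num),
    Finset.sum_insert (by norm_num), Finset.sum_singleton, e1, e2, e3, e4, e5, e6, e7, e8]
  norm_num

theorem K_smooth {M m : ℕ} (hM : 3 ≤ M) (hm : m ∈ K) : m ∈ M.smoothNumbers ∧ m % 3 = 2 := by
  have h : ∀ j : ℕ, 2 ^ j ∈ M.smoothNumbers := by
    intro j
    rw [Nat.mem_smoothNumbers']
    intro p hp hpj
    have := (Nat.prime_dvd_prime_iff_eq hp Nat.prime_two).1 (hp.dvd_of_dvd_pow hpj)
    omega
  unfold K at hm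
  simp only [mem_insert, mem_singleton] at hm
  rcases hm with rfl | rfl | rfl | rfl | rfl | rfl | rfl | rfl
  · exact ⟨by simpa using h 1, by norm_num⟩
  · exact ⟨by simpa using h 3, by norm_num⟩
  · exact ⟨by simpa using h 5, by norm_num⟩
  · exact ⟨by simpa using h 7, by norm_num⟩
  · exact ⟨by simpa using h 9, by norm_num⟩
  · exact ⟨by simpa using h 11, by norm_num⟩
  · exact ⟨by simpa using h 13, by norm_num⟩
  · exact ⟨by simpa using h 15, by norm_num⟩

/-- The Fermat primes. -/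
theorem sumE (Q : Finset ℕ) (hQ : ∀ p ∈ Q, p.Prime ∧ (p - 1) / 2 ∈ K ∧ Odd p) :
    ∑ p ∈ Q, w2 p ≤ 45739 / 1000000 := by
  have h1 : Q ⊆ {5, 17, 257, 65537} := by
    intro p hp
    obtain ⟨h1, h2, k, hk⟩ := hQ p hp
    have h3 : (p - 1) / 2 = k := by omega
    rw [h3] at h2
    unfold K at h2
    simp only [mem_insert, mem_singleton] at h2
    rw [hk] at h1 ⊢
    rcases h2 with rfl | rfl | rfl | rfl | rfl | rfl | rfl | rfl
    all_goals first
      | (exfalso; revert h1; norm_num; done)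
      | simp
  have hF : ∀ i : ℕ, i ≠ 0 → (2 ^ i + 1).Prime →
      w2 (2 ^ i + 1) = 17200 ^ i / ((2 : ℝ) ^ i + 1) ^ 15 := by
    intro i hi hp
    rw [w2_apply, f_fermat hi hp]
    push_cast
    rfl
  have f5 : w2 5 = 17200 ^ 2 / ((2 : ℝ) ^ 2 + 1) ^ 15 := hF 2 (by norm_num) (by norm_num)
  have f17 : w2 17 = 17200 ^ 4 / ((2 : ℝ) ^ 4 + 1) ^ 15 := hF 4 (by norm_num) (by norm_num)
  have f257 : w2 257 = 17200 ^ 8 / ((2 : ℝ) ^ 8 + 1) ^ 15 := hF 8 (by norm_num) (by norm_num)
  have f65537 : w2 65537 = 17200 ^ 16 / ((2 : ℝ) ^ 16 + 1) ^ 15 :=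
    hF 16 (by norm_num) (by norm_num)
  refine (Finset.sum_le_sum_of_subset_of_nonneg h1 (fun p _ _ => w2_nonneg p)).trans ?_
  rw [Finset.sum_insert (by norm_num), Finset.sum_insert (by norm_num),
    Finset.sum_insert (by norm_num), Finset.sum_singleton, f5, f17, f257, f65537]
  norm_num

/-- The key bound. -/
theorem sum2_le (N : ℕ) : ∑ p ∈ P5a N, w2 p ≤ 1 / 4 ∧ ∑ p ∈ P5b N, w2 p ≤ 18 / 10000 := by
  classical
  induction N using Nat.strong_induction_on with
  | _ N ih =>
    rcases Nat.lt_or_ge N 6 with hN | hN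
    · have h0 : P5 N = ∅ := by
        ext p
        simp only [mem_P5, notMem_empty, iff_false]
        omega
      have h1 : P5a N = ∅ := by rw [P5a, h0]; rfl
      have h2 : P5b N = ∅ := by rw [P5b, h0]; rfl
      rw [h1, h2, Finset.sum_empty]; norm_num
    · set M := max 4 ((N + 1) / 2) with hM
      have hMN : M < N := by omega
      have hM4 : 4 ≤ M := le_max_left _ _
      obtain ⟨ihS, ihR⟩ := ih M hMN
      have hprod := (prodP5_le ihS ihR).trans exp_bound2
      have hhalf : ∀ p ∈ P5 N, (p - 1) / 2 ∈ M.smoothNumbers := by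
        intro p hp
        obtain ⟨k, h1, h2, h3⟩ := half_spec hp
        rw [mem_P5] at hp
        exact Nat.mem_smoothNumbers_of_lt (by omega) (by omega)
      constructor
      · -- class of two
        have hA := prodA_eq hM4
        have hB := prodB_ge hM4 ihS
        set Qa := (P5a N).filter (fun p => (p - 1) / 2 ∈ K) with hQa
        set Qb := (P5a N).filter (fun p => ¬ (p - 1) / 2 ∈ K) with hQb
        have hsplit : ∑ p ∈ P5a N, w2 p = ∑ p ∈ Qa, w2 p + ∑ p ∈ Qb, w2 p :=
          (Finset.sum_filter_add_sum_filter_not _ _ _).symm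
        have hE : ∑ p ∈ Qa, w2 p ≤ 45739 / 1000000 := by
          refine sumE Qa fun p hp => ?_
          simp only [hQa, P5a, mem_filter, mem_P5] at hp
          exact ⟨hp.1.1.1.2, hp.2, hp.1.1.1.2.odd_of_ne_two (by omega)⟩
        have hQbsub : Qb ⊆ P5 N := by
          intro p hp
          simp only [hQb, P5a, mem_filter] at hp
          exact hp.1.1
        have h1 := sum_half_le hQbsub
        set T := Qb.image (fun p => (p - 1) / 2) with hT
        have hdisj : Disjoint K T := by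
          rw [Finset.disjoint_left]
          intro m hm hm'
          rw [hT, mem_image] at hm'
          obtain ⟨p, hp, rfl⟩ := hm'
          simp only [hQb, mem_filter] at hp
          exact hp.2 hm
        have h2 := sum_two_le w2 w2_nonneg (fun p hp => w2_prime_lt_one hp) M (K ∪ T) (by
          intro m hm
          rw [mem_union] at hm
          rcases hm with hm | hm
          · exact K_smooth (by omega) hm
          · rw [hT, mem_image] at hm
            obtain ⟨p, hp, rfl⟩ := hm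
            simp only [hQb, P5a, mem_filter] at hp
            refine ⟨hhalf p hp.1.1, ?_⟩
            obtain ⟨k, h1, h2, h3⟩ := half_spec hp.1.1
            omega)
        rw [Finset.sum_union hdisj, hA] at h2
        have h3 := sumK
        have h4 : 2048 / 3123 * (7788 / 10000) ≤
            ∏ p ∈ M.primesBelow, (1 - w2 p * chi1 p)⁻¹ :=
          (mul_le_mul_of_nonneg_left exp_bound3 (by norm_num)).trans hB
        have h5 : ∑ m ∈ T, w2 m ≤
            (2048 / 973 * (12968 / 10000) - 2048 / 3123 * (7788 / 10000)) / 2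
              - 72450 / 100000 := by
          have := mul_le_mul_of_nonneg_left hprod (show (0 : ℝ) ≤ 2048 / 973 by norm_num)
          linarith
        rw [hsplit]
        have h6 : ∑ p ∈ Qb, w2 p ≤ 1075 / 2048 *
            ((2048 / 973 * (12968 / 10000) - 2048 / 3123 * (7788 / 10000)) / 2
              - 72450 / 100000) :=
          h1.trans (mul_le_mul_of_nonneg_left h5 (by norm_num))
        refine (add_le_add hE h6).trans ?_
        norm_num
      · -- class of one
        have hA := prodA_eq hM4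
        have hC := prodC_eq hM4
        have hsub : P5b N ⊆ P5 N := by
          intro p hp
          simp only [P5b, mem_filter] at hp
          exact hp.1
        have h1 := sum_half_le hsub
        set T := (P5b N).image (fun p => (p - 1) / 2) with hT
        have h2 := sum_zero_le w2 w2_nonneg (fun p hp => w2_prime_lt_one hp) M T (by
          intro m hm
          rw [hT, mem_image] at hm
          obtain ⟨p, hp, rfl⟩ := hm
          refine ⟨hhalf p (hsub hp), ?_⟩
          obtain ⟨k, h1, h2, h3⟩ := half_spec (hsub hp)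
          simp only [P5b, mem_filter] at hp
          omega)
        rw [hA, hC] at h2
        have h3 : ∑ m ∈ T, w2 m ≤ 2048 / 973 * (14348907 / 14331707 - 1) * (12968 / 10000) := by
          have := mul_le_mul_of_nonneg_left hprod
            (show (0 : ℝ) ≤ 2048 / 973 * (14348907 / 14331707 - 1) by norm_num)
          linarith
        refine (h1.trans (mul_le_mul_of_nonneg_left h3 (by norm_num))).trans ?_
        norm_num

/-- The sum of the weights is bounded. -/
theorem sumW2_le (N : ℕ) : ∑ n ∈ Finset.Icc 1 N, w2 n ≤ 3 := by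
  have h1 := sum_all_le w2 w2_nonneg (fun p hp => w2_prime_lt_one hp) (max 4 (N + 1))
    (Finset.Icc 1 N) (by
      intro m hm
      rw [mem_Icc] at hm
      exact Nat.mem_smoothNumbers_of_lt (by omega) (by omega))
  rw [prodC_eq (le_max_left _ _)] at h1
  have h2 := (prodP5_le (sum2_le (max 4 (N + 1))).1 (sum2_le (max 4 (N + 1))).2).trans exp_bound2
  refine (h1.trans (mul_le_mul_of_nonneg_left h2 (by norm_num))).trans ?_
  norm_num

end Pool.Agent.Helper42.Tot
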